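import Pool.Agent.N826.WC.Stm

/-!
# Project SS/D, leaf WC, part NULL
-/

set_option autoImplicit false

namespace Pool.Agent.N826.WC

open Filter Topology
open scoped InnerProductSpace ComplexOrder
open Pool.Agent.H494R3.GT (L2 dl inner_dl dl_inner vec_ext op_ext op_ext_inner mul_ap)
open Pool.Agent.N557.QW (lam rgt LG LK cf rc star_rgt rgt_dl)
open Pool.Agent.N571.SS Pool.Agent.N571.SS.D

noncomputable section

namespace NULL

variable {H : Type} [NormedAddCommGroup H] [InnerProductSpace ℂ H] [CompleteSpace H]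

/-- sums over orthogonal projections -/
theorem sum_sq {m : ℕ} (q : Fin m → (H →L[ℂ] H)) (h1 : ∀ i, star (q i) = q i)
    (h2 : ∀ i, q i * q i = q i) (h3 : ∀ i j, i ≠ j → q i * q j = 0) (w : Fin m → H) :
    ‖∑ i, q i (w i)‖ ^ 2 = ∑ i, ‖q i (w i)‖ ^ 2 := by
  have horth : ∀ i j, i ≠ j → ⟪q i (w i), q j (w j)⟫_ℂ = 0 := by
    intro i j hij
    have e : ⟪q i (w i), q j (w j)⟫_ℂ = ⟪w i, (q i * q j) (w j)⟫_ℂ := by
      have e1 : ⟪star (q i) (w i), q j (w j)⟫_ℂ = ⟪w i, q i (q j (w j))⟫_ℂ := by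
        rw [ContinuousLinearMap.star_eq_adjoint, ContinuousLinearMap.adjoint_inner_left]
      rw [h1 i] at e1
      exact e1
    rw [e, h3 i j hij]
    simp
  have h4 : (⟪∑ i, q i (w i), ∑ i, q i (w i)⟫_ℂ) = ∑ i, ⟪q i (w i), q i (w i)⟫_ℂ := by
    rw [sum_inner]
    refine Finset.sum_congr rfl fun i _ => ?_
    rw [inner_sum]
    exact Finset.sum_eq_single i (fun j _ hj => horth i j (Ne.symm hj))
      fun h => absurd (Finset.mem_univ i) h
  rw [← inner_self_eq_norm_sq (𝕜 := ℂ), h4, map_sum]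
  exact Finset.sum_congr rfl fun i _ => inner_self_eq_norm_sq (𝕜 := ℂ) _

theorem sum_one {m : ℕ} (q : Fin m → (H →L[ℂ] H)) (h1 : ∀ i, star (q i) = q i)
    (h2 : ∀ i, q i * q i = q i) (h3 : ∀ i j, i ≠ j → q i * q j = 0) (h4 : ∑ i, q i = 1)
    (v : H) : ∑ i, ‖q i v‖ ^ 2 = ‖v‖ ^ 2 := by
  rw [← sum_sq q h1 h2 h3 fun _ => v]
  congr 2
  rw [← sum_apply, h4]
  rfl

theorem norm_dl {X : Type} (x : X) : ‖(dl x : L2 X)‖ = 1 := by
  classical
  have h : ⟪(dl x : L2 X), dl x⟫_ℂ = 1 := by rw [dl_inner, if_pos rfl]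
  have h2 : ‖(dl x : L2 X)‖ ^ 2 = 1 := by
    rw [← inner_self_eq_norm_sq (𝕜 := ℂ), h]
    simp
  nlinarith [norm_nonneg (dl x : L2 X)]

theorem norm_rgt {G : Type} [Group G] (g : G) (v : L2 G) : ‖rgt g v‖ = ‖v‖ := by
  have h1 : star (rgt g) * rgt g = (1 : B G) := by
    rw [star_rgt]
    refine op_ext fun s => ?_
    rw [mul_ap, rgt_dl, rgt_dl, mul_inv_cancel_right]
    rfl
  have h2 : ⟪rgt g v, rgt g v⟫_ℂ = ⟪v, v⟫_ℂ := by
    rw [← ContinuousLinearMap.adjoint_inner_right, ← ContinuousLinearMap.star_eq_adjoint,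
      ← mul_ap, h1]
    rfl
  have h3 : ‖rgt g v‖ ^ 2 = ‖v‖ ^ 2 := by
    rw [← inner_self_eq_norm_sq (𝕜 := ℂ), h2, inner_self_eq_norm_sq (𝕜 := ℂ)]
  exact (sq_eq_sq₀ (norm_nonneg _) (norm_nonneg _)).1 h3

theorem norm_Pg {G : Type} [Group G] (g : G) (p : B G) (hp : p ∈ LG G) (hs : star p = p) :
    ‖Pg g * p‖ ≤ ‖p (dl 1)‖ := by
  refine ContinuousLinearMap.opNorm_le_bound _ (norm_nonneg _) fun v => ?_
  have h1 : (Pg g * p) v = ⟪p (dl g), v⟫_ℂ • (dl g : L2 G) := by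
    rw [mul_ap]
    have h2 : ⟪(dl g : L2 G), p v⟫_ℂ = ⟪p (dl g), v⟫_ℂ := by
      rw [← ContinuousLinearMap.adjoint_inner_left, ← ContinuousLinearMap.star_eq_adjoint, hs]
    rw [← h2]
    rfl
  rw [h1, norm_smul, norm_dl, mul_one]
  refine (norm_inner_le_norm _ _).trans ?_
  rw [Pool.Agent.N571.EX.TRx.ap_dl hp g, norm_rgt]

end NULL

open NULL in
theorem w_null (h0 : S_BAS) (h6 : S_DIF) : W_NULL := by
  intro G _ A hA hD ξ hξ hp g
  obtain hB := h0 G
  have key : ∀ ε : ℝ, 0 < ε → ∀ᶠ n in atTop, ‖a1 (Pg g) (ξ n)‖ ≤ Real.sqrt ε * ‖ξ n‖ + ε := by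
    intro ε hε
    obtain ⟨m, p, h1, h2, h3⟩ := h6 G A hA hD ε hε
    -- the projections in the second leg
    set q : Fin m → B (G × G) := fun i => a2 (cj (p i)) with hq
    have q1 : ∀ i, star (q i) = q i := fun i => by
      simp only [hq]
      rw [← hB.a2_star, ← hB.cj_star, (h1 i).2.1]
    have q2 : ∀ i, q i * q i = q i := fun i => by
      simp only [hq]
      rw [← hB.a2_mul, ← hB.cj_mul, (h1 i).2.2.1]
    have cj0 : cj (0 : B G) = 0 := by
      have h := hB.cj_smul 0 0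
      rwa [zero_smul, map_zero, zero_smul] at h
    have a20 : a2 (0 : B G) = 0 := by
      have h := hB.a2_smul 0 0
      rwa [zero_smul, zero_smul] at h
    have a10 : a1 (0 : B G) = 0 := by
      have h := hB.a1_smul 0 0
      rwa [zero_smul, zero_smul] at h
    have q3 : ∀ i j, i ≠ j → q i * q j = 0 := fun i j hij => by
      simp only [hq]
      rw [← hB.a2_mul, ← hB.cj_mul, h2 i j hij, cj0, a20]
    have sum_cj : ∀ s : Finset (Fin m), ∑ i ∈ s, a2 (cj (p i)) = a2 (cj (∑ i ∈ s, p i)) := by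
      intro s
      classical
      induction s using Finset.induction_on with
      | empty => rw [Finset.sum_empty, Finset.sum_empty, cj0, a20]
      | insert a s ha ih => rw [Finset.sum_insert ha, Finset.sum_insert ha, ih, hB.cj_add, hB.a2_add]
    have q4 : ∑ i, q i = 1 := by
      simp only [hq]
      rw [sum_cj, h3, hB.cj_one, hB.a2_one]
    have sum_a1 : ∀ s : Finset (Fin m), ∑ i ∈ s, a1 (Pg g * p i) = a1 (Pg g * ∑ i ∈ s, p i) := by
      intro s
      classical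
      induction s using Finset.induction_on with
      | empty => rw [Finset.sum_empty, Finset.sum_empty, mul_zero, a10]
      | insert a s ha ih => rw [Finset.sum_insert ha, Finset.sum_insert ha, ih, mul_add, hB.a1_add]
    -- the main estimate
    have hmain : ∀ n, ‖a1 (Pg g) (ξ n)‖ ≤ Real.sqrt ε * ‖ξ n‖ +
        ∑ i, ‖a1 (Pg g * p i)‖ * ‖a1 (p i) (ξ n) - a2 (cj (p i)) (ξ n)‖ := by
      intro n
      have e1 : a1 (Pg g) (ξ n) = ∑ i, a1 (Pg g * p i) (a1 (p i) (ξ n)) := by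
        have e2 : ∀ i, a1 (Pg g * p i) (a1 (p i) (ξ n)) = a1 (Pg g * p i) (ξ n) := by
          intro i
          rw [← mul_ap, ← hB.a1_mul, mul_assoc, (h1 i).2.2.1]
        rw [Finset.sum_congr rfl fun i _ => e2 i, ← sum_apply, sum_a1, h3, mul_one]
      have e3 : ∑ i, a1 (Pg g * p i) (a1 (p i) (ξ n)) =
          ∑ i, q i (a1 (Pg g * p i) (ξ n)) +
            ∑ i, a1 (Pg g * p i) (a1 (p i) (ξ n) - a2 (cj (p i)) (ξ n)) := by
        rw [← Finset.sum_add_distrib]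
        refine Finset.sum_congr rfl fun i _ => ?_
        have e4 : q i (a1 (Pg g * p i) (ξ n)) = a1 (Pg g * p i) (a2 (cj (p i)) (ξ n)) := by
          simp only [hq]
          rw [← mul_ap, ← mul_ap, hB.comm]
        rw [e4, map_sub]
        abel
      have e5 : ‖∑ i, q i (a1 (Pg g * p i) (ξ n))‖ ≤ Real.sqrt ε * ‖ξ n‖ := by
        have e6 : ‖∑ i, q i (a1 (Pg g * p i) (ξ n))‖ ^ 2 ≤ (Real.sqrt ε * ‖ξ n‖) ^ 2 := by
          rw [sum_sq q q1 q2 q3, mul_pow, Real.sq_sqrt hε.le, ← sum_one q q1 q2 q3 q4 (ξ n),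
            Finset.mul_sum]
          refine Finset.sum_le_sum fun i _ => ?_
          have e4 : q i (a1 (Pg g * p i) (ξ n)) = a1 (Pg g * p i) (q i (ξ n)) := by
            simp only [hq]
            rw [← mul_ap, ← mul_ap, hB.comm]
          have e7 : ‖a1 (Pg g * p i)‖ ^ 2 ≤ ε := by
            have e8 : ‖a1 (Pg g * p i)‖ ≤ ‖p i (dl 1)‖ :=
              (hB.a1_norm _).trans (norm_Pg g (p i) (hA _ (h1 i).1) (h1 i).2.1)
            have e9 := (h1 i).2.2.2
            nlinarith [norm_nonneg (a1 (Pg g * p i)), norm_nonneg (p i (dl 1))]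
          rw [e4]
          have e10 := (a1 (Pg g * p i)).le_opNorm (q i (ξ n))
          have e11 : ‖a1 (Pg g * p i) (q i (ξ n))‖ ^ 2 ≤
              (‖a1 (Pg g * p i)‖ * ‖q i (ξ n)‖) ^ 2 :=
            pow_le_pow_left₀ (norm_nonneg _) e10 2
          rw [mul_pow] at e11
          exact e11.trans (mul_le_mul_of_nonneg_right e7 (sq_nonneg _))
        exact le_of_sq_le_sq e6 (by positivity)
      have e12 : ‖∑ i, a1 (Pg g * p i) (a1 (p i) (ξ n) - a2 (cj (p i)) (ξ n))‖ ≤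
          ∑ i, ‖a1 (Pg g * p i)‖ * ‖a1 (p i) (ξ n) - a2 (cj (p i)) (ξ n)‖ :=
        (norm_sum_le _ _).trans (Finset.sum_le_sum fun i _ => (a1 (Pg g * p i)).le_opNorm _)
      rw [e1, e3]
      exact (norm_add_le _ _).trans (add_le_add e5 e12)
    have hlim : Tendsto (fun n => ∑ i, ‖a1 (Pg g * p i)‖ *
        ‖a1 (p i) (ξ n) - a2 (cj (p i)) (ξ n)‖) atTop (𝓝 0) := by
      have h4 : Tendsto (fun n => ∑ i, ‖a1 (Pg g * p i)‖ *
          ‖a1 (p i) (ξ n) - a2 (cj (p i)) (ξ n)‖) atTop (𝓝 (∑ i, ‖a1 (Pg g * p i)‖ * 0)) :=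
        tendsto_finsetSum _ fun i _ =>
          (hp (p i) (h1 i).1 (h1 i).2.1 (h1 i).2.2.1).const_mul _
      simpa using h4
    filter_upwards [hlim.eventually_lt_const hε] with n hn
    exact (hmain n).trans (by linarith)
  -- conclusion
  rw [Metric.tendsto_nhds]
  intro δ hδ
  set ε : ℝ := min ((δ / 8) ^ 2) (δ / 8) with hε
  have hε0 : 0 < ε := lt_min (by positivity) (by positivity)
  have hε1 : Real.sqrt ε ≤ δ / 8 := by
    rw [Real.sqrt_le_left (by positivity)]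
    exact min_le_left _ _
  have hε2 : ε ≤ δ / 8 := min_le_right _ _
  filter_upwards [key ε hε0, hξ.eventually_lt_const (show (1 : ℝ) < 2 by norm_num)] with n a1' a2'
  rw [Real.dist_eq, sub_zero, abs_of_nonneg (norm_nonneg _)]
  have h5 : Real.sqrt ε * ‖ξ n‖ ≤ δ / 8 * 2 :=
    mul_le_mul hε1 a2'.le (norm_nonneg _) (by positivity)
  linarith

end

end Pool.Agent.N826.WC
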