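import Pool.Agent.N571.SS.D.Stm
import Pool.Agent.N571.EX.TR

/-!
# Project SS/D, leaf WC (weak compactness): statements of the parts
-/

set_option autoImplicit false

namespace Pool.Agent.N826.WC

open Filter Topology
open scoped InnerProductSpace ComplexOrder
open Pool.Agent.H494R3.GT (L2 dl)
open Pool.Agent.N557.QW (lam rgt LG LK cf rc)
open Pool.Agent.N571.SS Pool.Agent.N571.SS.D

noncomputable section

/-- `u ⊗ cj u` -/
def Uu {G : Type} [Group G] (u : B G) : B (G × G) := a1 u * a2 (cj u)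

/-- `C` is the C*-algebra generated by the `a ⊗ cj b` with `a, b ∈ A` -/
structure CA {G : Type} [Group G] (A : VonNeumannAlgebra (L2 G))
    (C : StarSubalgebra ℂ (B (G × G))) : Prop where
  closed : IsClosed (C : Set (B (G × G)))
  gen : ∀ a ∈ A, ∀ b ∈ A, a1 a * a2 (cj b) ∈ C
  dense : ∀ Z ∈ C, ∀ ε : ℝ, 0 < ε → ∃ (m : ℕ) (x y : Fin m → B G),
    (∀ i, x i ∈ A ∧ y i ∈ A ∧ Un (y i)) ∧ ‖Z - ∑ i, a1 (x i) * a2 (cj (y i))‖ ≤ ε

/-- continuous linear maps which agree on the `a ⊗ cj b` agree on `C` -/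
theorem CA.ext {G : Type} [Group G] {A : VonNeumannAlgebra (L2 G)}
    {C : StarSubalgebra ℂ (B (G × G))} (h : CA A C) {E : Type} [NormedAddCommGroup E]
    [NormedSpace ℂ E] (F F' : B (G × G) →L[ℂ] E)
    (hF : ∀ a ∈ A, ∀ b ∈ A, F (a1 a * a2 (cj b)) = F' (a1 a * a2 (cj b))) :
    ∀ Z ∈ C, F Z = F' Z := by
  intro Z hZ
  rw [← sub_eq_zero, ← sub_apply]
  by_contra hne
  have hpos : 0 < ‖(F - F') Z‖ := norm_pos_iff.2 hne
  obtain ⟨m, x, y, hxy, hb⟩ := h.dense Z hZ (‖(F - F') Z‖ / (2 * (‖F - F'‖ + 1))) (by positivity)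
  have h1 : (F - F') (∑ i, a1 (x i) * a2 (cj (y i))) = 0 := by
    rw [map_sum]
    refine Finset.sum_eq_zero fun i _ => ?_
    rw [sub_apply, hF _ (hxy i).1 _ (hxy i).2.1, sub_self]
  have h2 : (F - F') Z = (F - F') (Z - ∑ i, a1 (x i) * a2 (cj (y i))) := by
    rw [map_sub, h1, sub_zero]
  have h3 := (F - F').le_opNorm (Z - ∑ i, a1 (x i) * a2 (cj (y i)))
  rw [← h2] at h3
  have h4 : ‖F - F'‖ * ‖Z - ∑ i, a1 (x i) * a2 (cj (y i))‖ ≤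
      ‖F - F'‖ * (‖(F - F') Z‖ / (2 * (‖F - F'‖ + 1))) :=
    mul_le_mul_of_nonneg_left hb (F - F').opNorm_nonneg
  have h5 : ‖F - F'‖ * (‖(F - F') Z‖ / (2 * (‖F - F'‖ + 1))) ≤ ‖(F - F') Z‖ / 2 := by
    have h6 : 0 ≤ ‖F - F'‖ := (F - F').opNorm_nonneg
    rw [mul_div_assoc', div_le_div_iff₀ (by positivity) (by positivity)]
    nlinarith
  linarith

/-- W1: the algebra `C` -/
def W_CA : Prop := ∀ (G : Type) [Group G] (A : VonNeumannAlgebra (L2 G)), (∀ x ∈ A, x ∈ LG G) →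
  ∃ C : StarSubalgebra ℂ (B (G × G)), CA A C

/-- W2: first properties of `C` -/
def W_TR : Prop := ∀ (G : Type) [Group G] (A : VonNeumannAlgebra (L2 G))
  (C : StarSubalgebra ℂ (B (G × G))), (∀ x ∈ A, x ∈ LG G) → CA A C →
  (∀ Z ∈ C, Z ∈ LG (G × G)) ∧ Tr C (dl (1 : G × G)) ∧
  (∀ u, Nor A u → ∀ Z ∈ C, Uu u * Z * star (Uu u) ∈ C ∧ star (Uu u) * Z * Uu u ∈ C) ∧
  ∀ u : B G, Un u → u ∈ LG G → Un (Uu u) ∧ Uu u ∈ LG (G × G)

/-- W3: the functional of `f` on `C` is given by an element of `C` -/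
def W_K : Prop := ∀ (G : Type) [Group G] (A : VonNeumannAlgebra (L2 G))
  (C : StarSubalgebra ℂ (B (G × G))), (∀ x ∈ A, x ∈ LG G) → CA A C →
  ∀ (f : G → ℝ) (s : Finset G), ∃ K ∈ C, ∀ Z ∈ C, tau (Z * star K) = tau (Z * star (Yf s f))

/-- W4: the bound -/
def W_BD : Prop := ∀ (G : Type) [Group G] (A : VonNeumannAlgebra (L2 G))
  (C : StarSubalgebra ℂ (B (G × G))), (∀ x ∈ A, x ∈ LG G) → CA A C →
  ∀ φ : B G →ₗ[ℂ] ℂ, St φ → (∀ x ∈ A, x ∈ Cen φ) → ∀ u ∈ Cen φ, Nor A u →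
  ∀ (f : G → ℝ) (s : Finset G) (c : ℝ), 0 ≤ c → (∀ g, g ∉ s → f g = 0) → HS f c →
  ∀ Z ∈ C, ∀ W ∈ C,
    ‖tau ((Z + Uu u * W) * star (Yf s f))‖ ≤ c * ‖Z + Uu u * W‖ ∧
    ‖tau ((Z + W * Uu u) * star (Yf s f))‖ ≤ c * ‖Z + W * Uu u‖

/-- the approximating functions -/
structure Sq {G : Type} [Group G] (f : ℕ → G → ℝ) (s : ℕ → Finset G) (ε : ℕ → ℝ) : Prop where
  pos : ∀ n, 0 < ε n
  le : ∀ n, ε n ≤ 1
  lim : Tendsto ε atTop (𝓝 0)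
  supp : ∀ n g, g ∉ s n → f n g = 0
  hs : ∀ n, HS (f n) (1 + ε n)
  one : ∀ g, Tendsto (fun n => f n g) atTop (𝓝 1)
  bd : ∀ n g, |f n g| ≤ 2

/-- W5: existence of the functions, and the values of the functionals -/
def W_SQ : Prop := ∀ (G : Type) [Group G] [Countable G], CMAP G →
  ∃ (f : ℕ → G → ℝ) (s : ℕ → Finset G) (ε : ℕ → ℝ), Sq f s ε

/-- W6: the values of the functionals -/
def W_LIM : Prop := ∀ (G : Type) [Group G] (f : ℕ → G → ℝ) (s : ℕ → Finset G) (ε : ℕ → ℝ),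
  Sq f s ε →
  (∀ u : B G, Un u → u ∈ LG G →
    Tendsto (fun n => tau (Uu u * star (Yf (s n) (f n)))) atTop (𝓝 1)) ∧
  ∀ x ∈ LG G, Tendsto (fun n => tau (a1 x * star (Yf (s n) (f n)))) atTop (𝓝 (tau x))

/-- the square roots of the positive parts of the functionals -/
structure App {G : Type} [Group G] (A : VonNeumannAlgebra (L2 G))
    (C : StarSubalgebra ℂ (B (G × G))) (f : ℕ → G → ℝ) (s : ℕ → Finset G)
    (L : ℕ → B (G × G)) : Prop where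
  mem : ∀ n, L n ∈ C
  pos : ∀ n, Pos (L n)
  app : ∃ δ : ℕ → ℝ, Tendsto δ atTop (𝓝 0) ∧ ∀ᶠ n in atTop, ∀ Z ∈ C,
    ‖tau (Z * (L n * L n)) - tau (Z * star (Yf (s n) (f n)))‖ ≤ δ n * ‖Z‖
  inv : ∀ u, Nor A u → ∃ η : ℕ → ℝ, Tendsto η atTop (𝓝 0) ∧ ∀ᶠ n in atTop, ∀ Z ∈ C,
    ‖tau (star (Uu u) * Z * Uu u * star (Yf (s n) (f n))) -
      tau (Z * star (Yf (s n) (f n)))‖ ≤ η n * ‖Z‖

/-- W7: existence of the square roots -/
def W_APP : Prop := ∀ (G : Type) [Group G] (A : VonNeumannAlgebra (L2 G))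
  (C : StarSubalgebra ℂ (B (G × G))), Am A → CA A C →
  ∀ (f : ℕ → G → ℝ) (s : ℕ → Finset G) (ε : ℕ → ℝ), Sq f s ε →
  ∃ L : ℕ → B (G × G), App A C f s L

/-- W8: asymptotic invariance -/
def W_INV : Prop := ∀ (G : Type) [Group G] (A : VonNeumannAlgebra (L2 G))
  (C : StarSubalgebra ℂ (B (G × G))), (∀ x ∈ A, x ∈ LG G) → CA A C →
  ∀ (f : ℕ → G → ℝ) (s : ℕ → Finset G) (L : ℕ → B (G × G)), App A C f s L →
  ∀ u, Nor A u → Inv (fun n => L n (dl (1 : G × G))) u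

/-- W9: the two limits -/
def W_VEC : Prop := ∀ (G : Type) [Group G] (A : VonNeumannAlgebra (L2 G))
  (C : StarSubalgebra ℂ (B (G × G))), (∀ x ∈ A, x ∈ LG G) → CA A C →
  ∀ (f : ℕ → G → ℝ) (s : ℕ → Finset G) (ε : ℕ → ℝ), Sq f s ε →
  ∀ L : ℕ → B (G × G), App A C f s L → ∀ x ∈ LG G,
  Tendsto (fun n => ⟪L n (dl (1 : G × G)), a1 x (L n (dl (1 : G × G)))⟫_ℂ) atTop (𝓝 (tau x)) ∧
  Tendsto (fun n => ⟪L n (dl (1 : G × G)), a1 (Rm x) (L n (dl (1 : G × G)))⟫_ℂ) atTop (𝓝 (tau x))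

/-- W10: the projections `p_i` -/
def W_PRJ : Prop := ∀ (G : Type) [Group G] (A : VonNeumannAlgebra (L2 G))
  (C : StarSubalgebra ℂ (B (G × G))), (∀ x ∈ A, x ∈ LG G) → CA A C →
  ∀ (f : ℕ → G → ℝ) (s : ℕ → Finset G) (ε : ℕ → ℝ), Sq f s ε →
  ∀ L : ℕ → B (G × G), App A C f s L → ∀ p ∈ A, star p = p → p * p = p →
  Tendsto (fun n => ‖L n (dl (1 : G × G))‖) atTop (𝓝 1) ∧
  Tendsto (fun n => ‖a1 p (L n (dl (1 : G × G))) - a2 (cj p) (L n (dl (1 : G × G)))‖) atTop (𝓝 0)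

/-- W11: the vectors are asymptotically orthogonal to the compact operators -/
def W_NULL : Prop := ∀ (G : Type) [Group G] (A : VonNeumannAlgebra (L2 G)),
  (∀ x ∈ A, x ∈ LG G) → Dif A → ∀ ξ : ℕ → L2 (G × G),
  Tendsto (fun n => ‖ξ n‖) atTop (𝓝 1) →
  (∀ p ∈ A, star p = p → p * p = p →
    Tendsto (fun n => ‖a1 p (ξ n) - a2 (cj p) (ξ n)‖) atTop (𝓝 0)) →
  ∀ g : G, Tendsto (fun n => ‖a1 (Pg g) (ξ n)‖) atTop (𝓝 0)

/-- the assembly -/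
theorem wc (w1 : W_CA) (w5 : W_SQ) (w7 : W_APP) (w8 : W_INV) (w9 : W_VEC)
    (w10 : W_PRJ) (w11 : W_NULL) : S_WC := by
  intro G _ _ hG A hA hD
  obtain ⟨C, hC⟩ := w1 G A hA.sub
  obtain ⟨f, s, ε, hs⟩ := w5 G hG
  obtain ⟨L, hL⟩ := w7 G A C hA hC f s ε hs
  have h1 := w10 G A C hA.sub hC f s ε hs L hL
  refine ⟨fun n => L n (dl (1 : G × G)), ⟨fun x hx => (w9 G A C hA.sub hC f s ε hs L hL x hx).1,
    fun x hx => (w9 G A C hA.sub hC f s ε hs L hL x hx).2, ?_⟩,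
    fun u hu => w8 G A C hA.sub hC f s L hL u hu⟩
  refine w11 G A hA.sub hD _ (h1 0 (zero_mem _) (star_zero _) (mul_zero _)).1 fun p hp hp1 hp2 =>
    (h1 p hp hp1 hp2).2

end

end Pool.Agent.N826.WC
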